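import Pool.Agent.H82.NET.Stmts

set_option autoImplicit false

namespace Pool.NET

open Topology

theorem tpc_symm (N : Set Nd) : ∀ v w : Nd, G0 N (fun _ => True) v w →
    G0 N (fun _ => True) w v := by
  rintro v w ⟨hv, hw, h⟩
  refine ⟨hw, hv, ?_⟩
  rcases h with h | h | h | h
  · exact Or.inr (Or.inl h)
  · exact Or.inl h
  · exact Or.inr (Or.inr (Or.inr h))
  · exact Or.inr (Or.inr (Or.inl h))

theorem tpc_rsymm (N : Set Nd) {v w : Nd}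
    (h : Relation.ReflTransGen (G0 N fun _ => True) v w) :
    Relation.ReflTransGen (G0 N fun _ => True) w v := by
  induction h with
  | refl => exact Relation.ReflTransGen.refl
  | tail _ hbc ih => exact Relation.ReflTransGen.head (tpc_symm N _ _ hbc) ih

theorem tpc_corner (N : Set Nd) (a b : ℤ)
    (hN : ∀ g : Nd, (g.1 = a ∨ g.1 = a + 1) → (g.2 = b ∨ g.2 = b + 1) → g ∈ N) (g : Nd)
    (h1 : g.1 = a ∨ g.1 = a + 1) (h2 : g.2 = b ∨ g.2 = b + 1) :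
    Relation.ReflTransGen (G0 N fun _ => True) (a, b) g := by
  obtain ⟨g1, g2⟩ := g
  have e1 : G0 N (fun _ => True) (a, b) (a + 1, b) :=
    ⟨hN _ (Or.inl rfl) (Or.inl rfl), hN _ (Or.inr rfl) (Or.inl rfl), Or.inl ⟨rfl, trivial⟩⟩
  have e2 : G0 N (fun _ => True) (a, b) (a, b + 1) :=
    ⟨hN _ (Or.inl rfl) (Or.inl rfl), hN _ (Or.inl rfl) (Or.inr rfl),
      Or.inr (Or.inr (Or.inl ⟨rfl, trivial⟩))⟩
  have e3 : G0 N (fun _ => True) (a + 1, b) (a + 1, b + 1) :=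
    ⟨hN _ (Or.inr rfl) (Or.inl rfl), hN _ (Or.inr rfl) (Or.inr rfl),
      Or.inr (Or.inr (Or.inl ⟨rfl, trivial⟩))⟩
  simp only at h1 h2
  rcases h1 with rfl | rfl <;> rcases h2 with rfl | rfl
  · exact Relation.ReflTransGen.refl
  · exact Relation.ReflTransGen.single e2
  · exact Relation.ReflTransGen.single e1
  · exact Relation.ReflTransGen.head e1 (Relation.ReflTransGen.single e3)

theorem tpc_floor (δ s s' : ℝ) (hδ : 0 < δ) (h : |s - s'| < δ) :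
    (max ⌊s / δ⌋ ⌊s' / δ⌋ = ⌊s / δ⌋ ∨ max ⌊s / δ⌋ ⌊s' / δ⌋ = ⌊s / δ⌋ + 1) ∧
      (max ⌊s / δ⌋ ⌊s' / δ⌋ = ⌊s' / δ⌋ ∨ max ⌊s / δ⌋ ⌊s' / δ⌋ = ⌊s' / δ⌋ + 1) := by
  obtain ⟨h1, h2⟩ := abs_lt.1 h
  have a1 : s / δ < s' / δ + 1 := by
    rw [← div_self hδ.ne', ← add_div]
    exact div_lt_div_of_pos_right (by linarith) hδ
  have a2 : s' / δ < s / δ + 1 := by
    rw [← div_self hδ.ne', ← add_div]
    exact div_lt_div_of_pos_right (by linarith) hδ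
  have b1 := Int.floor_le (s / δ)
  have b2 := Int.lt_floor_add_one (s / δ)
  have b3 := Int.floor_le (s' / δ)
  have b4 := Int.lt_floor_add_one (s' / δ)
  have c1 : ⌊s / δ⌋ < ⌊s' / δ⌋ + 2 := by
    have : ((⌊s / δ⌋ : ℤ) : ℝ) < ((⌊s' / δ⌋ + 2 : ℤ) : ℝ) := by
      push_cast
      linarith
    exact_mod_cast this
  have c2 : ⌊s' / δ⌋ < ⌊s / δ⌋ + 2 := by
    have : ((⌊s' / δ⌋ : ℤ) : ℝ) < ((⌊s / δ⌋ + 2 : ℤ) : ℝ) := by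
      push_cast
      linarith
    exact_mod_cast this
  omega

theorem tpc_thm : TPC_S := by
  intro δ F hδ hF
  have hmem : ∀ x ∈ F, ∀ g : Nd, (g.1 = ⌊x.1 / δ⌋ ∨ g.1 = ⌊x.1 / δ⌋ + 1) →
      (g.2 = ⌊x.2 / δ⌋ ∨ g.2 = ⌊x.2 / δ⌋ + 1) → g ∈ Qd δ F :=
    fun x hx g h1 h2 => ⟨x, hx, h1, h2⟩
  have hcor : ∀ x ∈ F, ∀ g : Nd, (g.1 = ⌊x.1 / δ⌋ ∨ g.1 = ⌊x.1 / δ⌋ + 1) →
      (g.2 = ⌊x.2 / δ⌋ ∨ g.2 = ⌊x.2 / δ⌋ + 1) →
      Relation.ReflTransGen (G0 (Qd δ F) fun _ => True) (⌊x.1 / δ⌋, ⌊x.2 / δ⌋) g :=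
    fun x hx g h1 h2 => tpc_corner _ _ _ (hmem x hx) g h1 h2
  have hnear : ∀ x ∈ F, ∀ y ∈ F, dist y x < δ →
      Relation.ReflTransGen (G0 (Qd δ F) fun _ => True) (⌊x.1 / δ⌋, ⌊x.2 / δ⌋)
        (⌊y.1 / δ⌋, ⌊y.2 / δ⌋) := by
    intro x hx y hy hd
    rw [Prod.dist_eq, max_lt_iff, Real.dist_eq, Real.dist_eq, abs_sub_comm, abs_sub_comm y.2] at hd
    obtain ⟨f1, f2⟩ := tpc_floor δ x.1 y.1 hδ hd.1
    obtain ⟨f3, f4⟩ := tpc_floor δ x.2 y.2 hδ hd.2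
    have g1 := hcor x hx (max ⌊x.1 / δ⌋ ⌊y.1 / δ⌋, max ⌊x.2 / δ⌋ ⌊y.2 / δ⌋) f1 f3
    have g2 := hcor y hy (max ⌊x.1 / δ⌋ ⌊y.1 / δ⌋, max ⌊x.2 / δ⌋ ⌊y.2 / δ⌋) f2 f4
    exact g1.trans (tpc_rsymm _ g2)
  have hall : ∀ x ∈ F, ∀ y ∈ F,
      Relation.ReflTransGen (G0 (Qd δ F) fun _ => True) (⌊x.1 / δ⌋, ⌊x.2 / δ⌋)
        (⌊y.1 / δ⌋, ⌊y.2 / δ⌋) := by
    intro x hx y hy
    refine hF.isConnected.isPreconnected.induction₂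
      (fun x y : ℝ × ℝ => Relation.ReflTransGen (G0 (Qd δ F) fun _ => True)
        (⌊x.1 / δ⌋, ⌊x.2 / δ⌋) (⌊y.1 / δ⌋, ⌊y.2 / δ⌋)) ?_ ?_ ?_ hx hy
    · intro x hx
      have h1 : ∀ᶠ y in 𝓝[F] x, dist y x < δ :=
        mem_nhdsWithin_of_mem_nhds (Metric.ball_mem_nhds x hδ)
      filter_upwards [h1, self_mem_nhdsWithin] with y hy1 hy2
      exact hnear x hx y hy2 hy1
    · intro x y z _ _ _ hxy hyz
      exact hxy.trans hyz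
    · intro x y _ _ hxy
      exact tpc_rsymm _ hxy
  rintro v ⟨p, hp, hv1, hv2⟩ w ⟨q, hq, hw1, hw2⟩
  exact ((tpc_rsymm _ (hcor p hp v hv1 hv2)).trans (hall p hp q hq)).trans (hcor q hq w hw1 hw2)

end Pool.NET
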